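import Pool.Agent.MP_5c28a4_al.H13S.Base

/-!
Abelian normal sections as modules (`sec`), and words in generators (`fin`).
-/

set_option autoImplicit false

namespace Pool.Agent.MP_5c28a4_al.H89S.StrA

open scoped commutatorElement

namespace SecFinA

/-- a normal subgroup with commuting elements is a module under conjugation -/
theorem sec_bot (Q : Type) [Group Q] (K : Subgroup Q) (hK : K.Normal)
    (hc : ∀ x ∈ K, ∀ y ∈ K, x * y = y * x) :
    ∃ (M : Type) (_ : AddCommGroup M) (σ : Representation ℤ Q M) (f : Q → M),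
      IsSec K ⊥ σ f := by
  classical
  let _ : CommGroup K :=
    { (inferInstance : Group K) with
      mul_comm := fun x y => Subtype.ext (hc x x.2 y y.2) }
  let c : Q → Additive K →+ Additive K := fun g =>
    MonoidHom.toAdditive (MulAut.conjNormal (H := K) g).toMonoidHom
  have hc' : ∀ (g : Q) (x : K), ((Additive.toMul (c g (Additive.ofMul x)) : K) : Q) =
      g * x * g⁻¹ := fun g x => rfl
  let σ : Representation ℤ Q (Additive K) :=
    { toFun := fun g => (c g).toIntLinearMap
      map_one' := by
        refine LinearMap.ext fun x => ?_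
        apply Additive.toMul.injective
        apply Subtype.ext
        have := hc' 1 (Additive.toMul x)
        simpa using this
      map_mul' := by
        intro g h
        refine LinearMap.ext fun x => ?_
        apply Additive.toMul.injective
        apply Subtype.ext
        have h1 := hc' (g * h) (Additive.toMul x)
        have h2 := hc' g (Additive.toMul (c h x))
        have h3 := hc' h (Additive.toMul x)
        change ((Additive.toMul (c (g * h) x) : K) : Q) = ((Additive.toMul (c g (c h x)) : K) : Q)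
        change ((Additive.toMul (c (g * h) x) : K) : Q) = _ at h1
        change ((Additive.toMul (c g (c h x)) : K) : Q) = _ at h2
        change ((Additive.toMul (c h x) : K) : Q) = _ at h3
        rw [h1, h2, h3]
        group }
  let f : Q → Additive K := fun x => if h : x ∈ K then Additive.ofMul ⟨x, h⟩ else 0
  have hf : ∀ (x : Q) (h : x ∈ K), f x = Additive.ofMul ⟨x, h⟩ := fun x h => dif_pos h
  refine ⟨Additive K, inferInstance, σ, f, ?_, ?_, ?_, ?_⟩
  · intro x hx y hy
    rw [hf x hx, hf y hy, hf _ (K.mul_mem hx hy)]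
    rfl
  · intro a
    exact ⟨(Additive.toMul a : K), (Additive.toMul a).2, hf _ _⟩
  · intro g x hx
    rw [hf x hx, hf _ (hK.conj_mem x hx g)]
    apply Additive.toMul.injective
    apply Subtype.ext
    exact (hc' g ⟨x, hx⟩).symm
  · intro x hx
    rw [hf x hx, Subgroup.mem_bot]
    constructor
    · intro h
      exact congrArg (fun a : Additive K => ((Additive.toMul a : K) : Q)) h
    · intro h
      apply Additive.toMul.injective
      exact Subtype.ext h

variable {N A : Type} [Group N] [AddCommGroup A] {ρ : Representation ℤ N A}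

/-- invariance of the augmentation powers -/
theorem aug_inv {D : Subgroup N} {U : Set A} (hU : ∀ d ∈ D, ∀ a ∈ U, ρ d a ∈ U) (n : ℕ)
    {d : N} (hd : d ∈ D) {v : A} (hv : v ∈ aug ρ D U n) : ρ d v ∈ aug ρ D U n := by
  induction hv using Submodule.span_induction with
  | mem v hv =>
    obtain ⟨l, rfl, hy, a, ha, rfl⟩ := hv
    have h1 : ρ d (wd ρ l a) = wd ρ (l.map fun y => d * y * d⁻¹) (ρ d a) :=
      LinearMap.congr_fun (wd_conj (ρ := ρ) d l) a
    have h2 := wd_mem_aug (ρ := ρ) (D := (D : Set N)) (U := U) (l := l.map fun y => d * y * d⁻¹)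
      (by
        intro y hy'
        obtain ⟨z, hz, rfl⟩ := List.mem_map.1 hy'
        exact D.mul_mem (D.mul_mem hd (hy z hz)) (D.inv_mem hd)) (hU d hd a ha)
    rw [List.length_map] at h2
    rw [h1]
    exact h2
  | zero => simp
  | add x y _ _ hx hy => rw [map_add]; exact Submodule.add_mem _ hx hy
  | smul c x _ hx => rw [map_smul]; exact Submodule.smul_mem _ c hx

/-- one step: generators are enough on an invariant set -/
theorem step {T : Set N} {V : Set A} {W : Submodule ℤ A}
    (hV : ∀ d ∈ Subgroup.closure T, ∀ a ∈ V, ρ d a ∈ V)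
    (hW : ∀ t ∈ T, ∀ a ∈ V, ρ t a - a ∈ W) {d : N} (hd : d ∈ Subgroup.closure T) :
    ∀ a ∈ V, ρ d a - a ∈ W := by
  induction hd using Subgroup.closure_induction with
  | mem t ht => exact hW t ht
  | one => intro a _; simp
  | mul x y _ hy hx' hy' =>
    intro a ha
    have : ρ (x * y) a - a = (ρ x (ρ y a) - ρ y a) + (ρ y a - a) := by
      rw [map_mul, Module.End.mul_apply]; abel
    rw [this]
    exact W.add_mem (hx' _ (hV y hy a ha)) (hy' a ha)
  | inv x hx hx' =>
    intro a ha
    have h1 : ρ x (ρ x⁻¹ a) = a := by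
      rw [← Module.End.mul_apply, ← map_mul, mul_inv_cancel, map_one, Module.End.one_apply]
    have : ρ x⁻¹ a - a = -(ρ x (ρ x⁻¹ a) - ρ x⁻¹ a) := by rw [h1]; abel
    rw [this]
    exact W.neg_mem (hx' _ (hV _ (Subgroup.inv_mem _ hx) a ha))

end SecFinA

open SecFinA

theorem sec : XSec := by
  intro N _ H H₀ hH hH₀ hle hc
  have hs : Function.Surjective (QuotientGroup.mk' H₀) := QuotientGroup.mk'_surjective H₀
  obtain ⟨M, iM, σ, f, h⟩ := sec_bot (N ⧸ H₀) (H.map (QuotientGroup.mk' H₀)) (hH.map _ hs) (by
    rintro _ ⟨x, hx, rfl⟩ _ ⟨y, hy, rfl⟩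
    rw [← commutatorElement_eq_one_iff_mul_comm, ← map_commutatorElement]
    exact (QuotientGroup.eq_one_iff _).2 (hc (Subgroup.commutator_mem_commutator hx hy)))
  refine ⟨M, iM, σ.comp (QuotientGroup.mk' H₀), fun x => f (QuotientGroup.mk' H₀ x),
    ?_, ?_, ?_, ?_⟩
  · intro x hx y hy
    simp only [map_mul]
    exact h.add _ ⟨x, hx, rfl⟩ _ ⟨y, hy, rfl⟩
  · intro a
    obtain ⟨_, ⟨x, hx, rfl⟩, he⟩ := h.surj a
    exact ⟨x, hx, he⟩
  · intro g x hx
    simp only [map_mul, map_inv]
    exact h.conj _ _ ⟨x, hx, rfl⟩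
  · intro x hx
    rw [h.ker _ ⟨x, hx, rfl⟩, Subgroup.mem_bot]
    exact QuotientGroup.eq_one_iff x

theorem fin : XFin := by
  intro N A _ _ ρ T U n hU
  induction n with
  | zero =>
    refine Submodule.span_le.2 ?_
    rintro _ ⟨l, hl, _, a, ha, rfl⟩
    obtain rfl := List.length_eq_zero_iff.1 hl
    exact wd_mem_aug (ρ := ρ) (D := T) (l := []) (by simp) ha
  | succ n ih =>
    refine Submodule.span_le.2 ?_
    rintro _ ⟨l, hl, hy, a, ha, rfl⟩
    obtain ⟨d, l, rfl⟩ := List.exists_cons_of_length_eq_add_one hl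
    have hl' : l.length = n := by simpa using hl
    have hv : wd ρ l a ∈ aug ρ (Subgroup.closure T) U n := by
      rw [← hl']
      exact wd_mem_aug (fun y hy' => hy y (List.mem_cons_of_mem _ hy')) ha
    have := step (ρ := ρ) (T := T) (V := aug ρ (Subgroup.closure T) U n)
      (W := aug ρ T U (n + 1)) (fun d hd v hv => aug_inv hU n hd hv)
      (fun t ht v hv => aug_step ht (ih hv)) (hy d List.mem_cons_self) _ hv
    simpa [wd_cons] using this

end Pool.Agent.MP_5c28a4_al.H89S.StrA
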