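import Pool.Agent.MP_5c28a4_al.H62S.Base

/-!
Part FIN of `SHaus`.
-/

set_option autoImplicit false

namespace Pool.Agent.MP_5c28a4_al.H89S.HausA

namespace RFinA

/-- a finitely generated abelian group of finite exponent is finite -/
theorem fin_of_tors {W : Type} [AddCommGroup W] [Module.Finite ℤ W] {n : ℕ} (hn : 0 < n)
    (h : ∀ x : W, n • x = 0) : Finite W :=
  Module.finite_of_fg_torsion W fun x =>
    ⟨⟨(n : ℤ), mem_nonZeroDivisors_of_ne_zero (by exact_mod_cast hn.ne')⟩, by simpa using h x⟩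

open scoped IsMulCommutative in
/-- members of a finite commuting family are integral when the symmetric expressions are -/
theorem integral_of_perm {E J : Type} [Ring E] [Finite J] (w : J → E)
    (hc : ∀ j j', w j * w j' = w j' * w j) (A : Set E)
    (hA : ∀ t ∈ A, ∃ π : J → J, Function.Injective π ∧ ∀ j, t * w (π j) = w j * t)
    (hI : ∀ c, (∀ t ∈ A, c * t = t * c) → IsIntegral ℤ c) (j : J) : IsIntegral ℤ (w j) := by
  classical
  have := Fintype.ofFinite J
  have := Algebra.isMulCommutative_adjoin ℤ (s := Set.range w) (by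
    rintro _ ⟨a, rfl⟩ _ ⟨b, rfl⟩
    exact hc a b)
  let D := Algebra.adjoin ℤ (Set.range w)
  let w' : J → D := fun j => ⟨w j, Algebra.subset_adjoin ⟨j, rfl⟩⟩
  let ev : MvPolynomial J ℤ →ₐ[ℤ] D := MvPolynomial.aeval w'
  let P : Polynomial (MvPolynomial J ℤ) := ∏ j, (Polynomial.X - Polynomial.C (MvPolynomial.X j))
  have hP : P.Monic := Polynomial.monic_prod_of_monic _ _ fun _ _ => Polynomial.monic_X_sub_C _
  have key : ∀ k, IsIntegral ℤ (ev (P.coeff k)) := fun k => by
    rw [← isIntegral_algHom_iff D.val Subtype.val_injective]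
    refine hI _ fun t ht => ?_
    obtain ⟨π, h1, h2⟩ := hA t ht
    have h3 : ∀ q, t * D.val (ev (MvPolynomial.rename π q)) = D.val (ev q) * t := fun q => by
      induction q using MvPolynomial.induction_on with
      | C a => simp [Int.cast_comm]
      | add a b ha hb => simp only [map_add, mul_add, add_mul, ha, hb]
      | mul_X a i ha =>
        simp only [map_mul, MvPolynomial.rename_X, ev, MvPolynomial.aeval_X] at ha ⊢
        rw [← mul_assoc, ha, mul_assoc, mul_assoc]
        exact congrArg _ (h2 i)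
    have h4 : P.map (MvPolynomial.rename π : MvPolynomial J ℤ →ₐ[ℤ] _).toRingHom = P := by
      simp only [P, Polynomial.map_prod, Polynomial.map_sub, Polynomial.map_X, Polynomial.map_C]
      simpa using (Finite.injective_iff_bijective.1 h1).prod_comp
        fun j => (Polynomial.X - Polynomial.C (MvPolynomial.X j) : Polynomial (MvPolynomial J ℤ))
    have h5 : MvPolynomial.rename π (P.coeff k) = P.coeff k := by
      conv_rhs => rw [← h4, Polynomial.coeff_map]
      rfl
    rw [← h3, h5]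
  have h6 : (P.map ev.toRingHom).eval (w' j) = 0 := by
    simp only [P, Polynomial.map_prod, Polynomial.eval_prod]
    exact Finset.prod_eq_zero (Finset.mem_univ j) (by simp [ev])
  rcases subsingleton_or_nontrivial D with hD | hD
  · exact (isIntegral_algHom_iff D.val Subtype.val_injective (x := w' j)).2
      (Subsingleton.elim 0 (w' j) ▸ isIntegral_zero)
  refine (isIntegral_algHom_iff D.val Subtype.val_injective (x := w' j)).2
    (IsIntegral.of_aeval_monic_of_isIntegral_coeff (hP.map ev.toRingHom) (fun h7 => ?_)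
      (h6 ▸ isIntegral_zero) fun k => by rw [Polynomial.coeff_map]; exact key k)
  rw [(hP.map ev.toRingHom).natDegree_eq_zero.1 h7, Polynomial.eval_one] at h6
  exact one_ne_zero h6

/-- an integral value of a group element in a ring of finite exponent has finite order -/
theorem pow_eq_one {Q E : Type} [Group Q] [Ring E] (v : Q →* E) {z : Q} (hz : IsIntegral ℤ (v z))
    {n : ℕ} (hn : 0 < n) (h : ∀ c : E, n • c = 0) : ∃ k, 0 < k ∧ v (z ^ k) = 1 := by
  have h1 : Module.Finite ℤ (Algebra.adjoin ℤ {v z}).toSubmodule := .of_fg hz.fg_adjoin_singleton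
  have h2 := fin_of_tors (W := (Algebra.adjoin ℤ {v z}).toSubmodule) hn fun x =>
    Subtype.ext (h x.1)
  obtain ⟨a, b, hab, e⟩ := Finite.exists_ne_map_eq_of_infinite fun k : ℕ =>
    (⟨v z ^ k, pow_mem (Algebra.self_mem_adjoin_singleton ℤ _) k⟩ :
      (Algebra.adjoin ℤ {v z}).toSubmodule)
  have e' : v z ^ a = v z ^ b := congrArg Subtype.val e
  wlog hlt : a < b generalizing a b
  · exact this b a hab.symm e.symm e'.symm (by omega)
  refine ⟨b - a, by omega, ?_⟩
  rw [pow_sub z hlt.le, map_mul, map_pow, ← e', ← map_pow, ← map_mul, mul_inv_cancel, map_one]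

end RFinA

open RFinA in
theorem rFin : BVn → RFin := by
  intro b Γ _ hG hV d M _ τ s hs ⟨T, hT⟩ hI ⟨n, hn, hM⟩
  classical
  let u : Fin d → Γ →* Module.End ℤ M := fun l =>
    MonoidHom.comp τ (MonoidHom.mulSingle (fun _ => Γ) l)
  let Δ : Subgroup Γ := ⨅ l, (u l).ker
  have hΔ : Δ.Normal := Subgroup.normal_iInf_normal fun _ => inferInstance
  have h1 : Subgroup.pi Set.univ (fun _ : Fin d => Δ) ≤ MonoidHom.ker τ :=
    Subgroup.pi_le_iff.2 fun l => by
      rintro _ ⟨x, hx, rfl⟩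
      exact Subgroup.mem_iInf.1 hx l
  rcases finite_or_infinite (Γ ⧸ Δ) with hQ | hQ
  · have h2 : (Set.range τ).Finite := by
      refine (Set.finite_range fun q : Fin d → Γ ⧸ Δ => τ fun l => (q l).out).subset ?_
      rintro _ ⟨g, rfl⟩
      refine ⟨fun l => (g l : Γ ⧸ Δ), ?_⟩
      have h3 : τ (g⁻¹ * fun l => (g l : Γ ⧸ Δ).out) = 1 := h1 fun l _ =>
        QuotientGroup.eq.1 (QuotientGroup.out_eq' _).symm
      have h4 := map_mul τ g (g⁻¹ * fun l => (g l : Γ ⧸ Δ).out)
      rwa [h3, mul_one, mul_inv_cancel_left] at h4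
    have h3 : Module.Finite ℤ M := by
      rw [Module.finite_def, ← hT]
      refine Submodule.fg_span ((h2.image2 (fun c t => c t) T.finite_toSet).subset ?_)
      rintro _ ⟨g, t, ht, rfl⟩
      exact ⟨_, ⟨g, rfl⟩, t, ht, rfl⟩
    exact fin_of_tors hn hM
  exfalso
  obtain ⟨Z, hZ, h2, h3, h4, h5⟩ := b.cen (Γ ⧸ Δ) inferInstance
    ((b.quot Γ Δ).1 (b.mono Γ ⊥ Δ hV bot_le hΔ)) hQ
  obtain ⟨⟨z, hz⟩, hz1⟩ := Subgroup.ne_bot_iff_exists_ne_one.1 h2
  let v : Fin d → (Γ ⧸ Δ) →* Module.End ℤ M := fun l =>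
    QuotientGroup.lift Δ (u l) (iInf_le _ l)
  have hv : ∀ l (x : Γ), v l x = τ (Pi.mulSingle l x) := fun _ _ => rfl
  let C := {y : Γ ⧸ Δ // ∃ q, y = q * z * q⁻¹}
  have hC : Finite C := by
    refine Finite.of_surjective
      (fun q : (Γ ⧸ Δ) ⧸ Subgroup.centralizer (Z : Set (Γ ⧸ Δ)) =>
        (⟨q.out * z * q.out⁻¹, _, rfl⟩ : C)) ?_
    rintro ⟨_, q, rfl⟩
    obtain ⟨c, hc⟩ := QuotientGroup.mk_out_eq_mul (Subgroup.centralizer (Z : Set (Γ ⧸ Δ))) q
    refine ⟨q, Subtype.ext ?_⟩
    have h6 := c.2 z hz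
    simp only [hc]
    rw [mul_assoc q, ← h6]
    group
  have hCZ : ∀ y : C, y.1 ∈ Z := by
    rintro ⟨_, q, rfl⟩
    exact hZ.conj_mem z hz q
  have key := integral_of_perm (J := Fin d × C) (fun j => v j.1 j.2.1) (by
    rintro ⟨l, y⟩ ⟨l', y'⟩
    by_cases h : l = l'
    · subst h
      simp only [← map_mul, h3 _ (hCZ y) _ (hCZ y')]
    · obtain ⟨a, ha⟩ := QuotientGroup.mk_surjective y.1
      obtain ⟨a', ha'⟩ := QuotientGroup.mk_surjective y'.1
      simp only [← ha, ← ha', hv, ← map_mul]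
      rw [(Pi.mulSingle_commute (f := fun _ => Γ) h a a').eq])
    (Set.range τ ∪ Set.range s) (by
      rintro _ (⟨g, rfl⟩ | ⟨σ, rfl⟩)
      · refine ⟨fun j => (j.1, ⟨(g j.1 : Γ ⧸ Δ)⁻¹ * j.2.1 * g j.1, ?_⟩), ?_, ?_⟩
        · obtain ⟨q, hq⟩ := j.2.2
          exact ⟨(g j.1 : Γ ⧸ Δ)⁻¹ * q, by rw [hq]; group⟩
        · rintro ⟨l, y⟩ ⟨l', y'⟩ h
          obtain ⟨rfl, h6⟩ := Prod.ext_iff.1 h
          have h7 := congrArg Subtype.val h6
          exact Prod.ext rfl (Subtype.ext (by simpa using h7))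
        · rintro ⟨l, y⟩
          obtain ⟨a, ha⟩ := QuotientGroup.mk_surjective y.1
          simp only [← ha, ← QuotientGroup.mk_inv, ← QuotientGroup.mk_mul, hv, ← map_mul]
          congr 1
          funext k
          by_cases h : k = l
          · subst h
            simp [mul_assoc]
          · simp [h]
      · refine ⟨fun j => (σ.symm j.1, j.2), fun j j' h => ?_, ?_⟩
        · obtain ⟨h6, h7⟩ := Prod.ext_iff.1 h
          exact Prod.ext (σ.symm.injective h6) h7
        · rintro ⟨l, y⟩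
          obtain ⟨a, ha⟩ := QuotientGroup.mk_surjective y.1
          simp only [← ha, hv, ← hs]
          congr 2
          funext k
          simp [Pi.mulSingle_apply, Equiv.eq_symm_apply])
    fun c hc => hI c ⟨fun g => hc _ (Or.inl ⟨g, rfl⟩), fun σ => hc _ (Or.inr ⟨σ, rfl⟩)⟩
  choose k hk0 hk using fun l => pow_eq_one (v l) (key (l, ⟨z, 1, by simp⟩)) hn
    fun c => LinearMap.ext fun x => hM (c x)
  refine hz1 (Subtype.ext (h4 z hz (isOfFinOrder_iff_pow_eq_one.2
    ⟨∏ l, k l, Finset.prod_pos fun l _ => hk0 l, ?_⟩)))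
  obtain ⟨a, ha⟩ := QuotientGroup.mk_surjective (z ^ ∏ l, k l)
  rw [← ha, QuotientGroup.eq_one_iff]
  refine Subgroup.mem_iInf.2 fun l => ?_
  obtain ⟨m, hm⟩ := Finset.dvd_prod_of_mem k (Finset.mem_univ l)
  have h6 : v l a = 1 := by rw [ha, hm, pow_mul, map_pow, hk, one_pow]
  exact h6

end Pool.Agent.MP_5c28a4_al.H89S.HausA
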